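import Pool.Agent.H.MP_a1a577_an.C

set_option autoImplicit false
open Metric Polynomial

namespace Pool.Agent.Results.MP_a1a577_an.Worst

/-- Operators on the `n`-dimensional complex Hilbert space. -/
abbrev Op (n : ℕ) := EuclideanSpace ℂ (Fin n) →L[ℂ] EuclideanSpace ℂ (Fin n)

/-- `f(T)`, given by the Taylor series of `f` at `0`. -/
noncomputable def fc {n : ℕ} (f : ℂ → ℂ) (T : Op n) : Op n :=
  ∑' k, (iteratedDeriv k f 0 / (k.factorial : ℂ)) • T ^ k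

/-- `A(p)`: the contractions annihilated by `p`. -/
def A (n : ℕ) (p : ℂ[X]) : Set (Op n) := {T | ‖T‖ ≤ 1 ∧ aeval T p = 0}

/-- Polynomials of degree `n` with all roots in `|z| ≤ r`. -/
def P (n : ℕ) (r : ℝ) : Set ℂ[X] := {p | p.degree = n ∧ ∀ z, p.IsRoot z → ‖z‖ ≤ r}

theorem result (n : ℕ) (hn : 1 ≤ n) (r : ℝ) (h0 : 0 < r) (h1 : r < 1) (f : ℂ → ℂ)
    (hf : DifferentiableOn ℂ f (ball 0 1)) :
    ∃ a : ℂ, ‖a‖ = r ∧ (X - C a) ^ n ∈ P n r ∧ ∃ S ∈ A n ((X - C a) ^ n),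
      ∀ p ∈ P n r, ∀ T ∈ A n p, ‖fc f T‖ ≤ ‖fc f S‖ ∧
        Summable fun k => (iteratedDeriv k f 0 / (k.factorial : ℂ)) • T ^ k := by
  obtain ⟨n, rfl⟩ : ∃ m, n = m + 1 := ⟨n - 1, by omega⟩
  obtain ⟨ρ, r1, r2⟩ := exists_between h1
  have hc := H.MP_a1a577_an.taylor hf (h0.trans r1) r2
  obtain ⟨ζ, z1, s1, s2, h⟩ := H.MP_a1a577_an.final n h0 h1 r1 hc
  have ha : ‖ζ * r‖ = r := by simp [z1, abs_of_pos h0]
  refine ⟨_, ha, ⟨by simp only [degree_pow, degree_X_sub_C, nsmul_eq_mul, mul_one],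
    fun z hz => ?_⟩, _, ⟨s1, s2⟩, fun p hp T hT => ?_⟩
  · simp only [IsRoot, eval_pow, eval_sub, eval_X, eval_C] at hz
    rw [sub_eq_zero.1 (pow_eq_zero_iff (Nat.succ_ne_zero n) |>.1 hz), ha]
  · have := fun z hz => hp.2 z (H.MP_a1a577_an.spec hT.2 hz)
    exact ⟨h T hT.1 this, (H.MP_a1a577_an.sm this h0 r1 hc).of_norm⟩

end Pool.Agent.Results.MP_a1a577_an.Worst
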